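import Pool.Agent.W122.DS.Defs

/-!
DS-3: consequences of a bounded zero solution.
-/

set_option autoImplicit false


namespace Pool.Agent.W978.DS

open Pool.Agent.W122.DS Filter Topology

variable {d : ℕ}

/-! ### Sums over the lattice -/

theorem shift_summable {D : Lat d → ℝ} (h : Summable D) (v : Lat d) :
    Summable (fun x => D (x + v)) := (Equiv.addRight v).summable_iff.mpr h

theorem shift_tsum (D : Lat d → ℝ) (v : Lat d) : ∑' x, D (x + v) = ∑' x, D x :=
  (Equiv.addRight v).tsum_eq D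

theorem hasSum_diff {D : Lat d → ℝ} (h : Summable D) (v : Lat d) :
    HasSum (fun x => D x - D (x + v)) 0 := by
  have h1 := h.hasSum.sub (shift_summable h v).hasSum
  rwa [shift_tsum D v, sub_self] at h1

theorem shift_summable' {D : Lat d → ℝ} (h : Summable D) (v : Lat d) :
    Summable (fun x => D (x - v)) := by
  have := shift_summable h (-v)
  simpa only [← sub_eq_add_neg] using this

/-- Cauchy-Schwarz -/
theorem cs {ι : Type} {a b : ι → ℝ} (ha : Summable fun x => a x ^ 2)
    (hb : Summable fun x => b x ^ 2) : Summable (fun x => a x * b x) ∧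
      (∑' x, a x * b x) ^ 2 ≤ (∑' x, a x ^ 2) * ∑' x, b x ^ 2 := by
  have h1 : Summable (fun x => a x * b x) := by
    refine Summable.of_norm_bounded (ha.add hb) (fun x => ?_)
    rw [Real.norm_eq_abs, abs_le]
    constructor <;> nlinarith [sq_nonneg (a x + b x), sq_nonneg (a x - b x), sq_nonneg (a x),
      sq_nonneg (b x)]
  refine ⟨h1, ?_⟩
  have h2 : Tendsto (fun s : Finset ι => (∑ x ∈ s, a x * b x) ^ 2) atTop
      (𝓝 ((∑' x, a x * b x) ^ 2)) := h1.hasSum.pow 2
  refine le_of_tendsto h2 (Eventually.of_forall fun s => ?_)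
  refine (Finset.sum_mul_sq_le_sq_mul_sq s a b).trans ?_
  have h3 : ∑ x ∈ s, a x ^ 2 ≤ ∑' x, a x ^ 2 := ha.sum_le_tsum s fun x _ => sq_nonneg _
  have h4 : ∑ x ∈ s, b x ^ 2 ≤ ∑' x, b x ^ 2 := hb.sum_le_tsum s fun x _ => sq_nonneg _
  have h5 : 0 ≤ ∑ x ∈ s, b x ^ 2 := Finset.sum_nonneg fun x _ => sq_nonneg _
  have h6 : 0 ≤ ∑' x, a x ^ 2 := tsum_nonneg fun x => sq_nonneg _
  exact mul_le_mul h3 h4 h5 h6

theorem fin_summable {f : Lat d → ℝ} (L : Finset (Lat d)) (h : ∀ y, y ∉ L → f y = 0) :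
    Summable f := summable_of_ne_finset_zero (s := L) fun y hy => h y hy

/-! ### The identity -/

/-- the energy of an edge -/
noncomputable def av (ψ u : Lat d → ℝ) (i : Fin d) (x : Lat d) : ℝ :=
  ψ x * ψ (x + Pi.single i 1) *
    (u x / ψ x - u (x + Pi.single i 1) / ψ (x + Pi.single i 1)) ^ 2

/-- the difference terms -/
noncomputable def dv (ψ u : Lat d → ℝ) (i : Fin d) (x : Lat d) : ℝ :=
  u x ^ 2 * (ψ (x - Pi.single i 1) / ψ x) - u (x - Pi.single i 1) * u x

theorem pointwise {U ψ : Lat d → ℝ} (hψ : ∀ y, 0 < ψ y)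
    (hz : ∀ y, negLap ψ y + U y * ψ y = 0) (u : Lat d → ℝ) (x : Lat d) :
    u x * (negLap u x + U x * u x) =
      ∑ i, (av ψ u i x + (dv ψ u i x - dv ψ u i (x + Pi.single i 1))) := by
  have h1 : U x = - negLap ψ x / ψ x := by
    have := hz x
    rw [eq_div_iff (hψ x).ne']
    linarith
  have h2 : u x * (negLap u x + U x * u x) = ∑ i, (u x *
      (2 * u x - u (x + Pi.single i 1) - u (x - Pi.single i 1)) -
      u x ^ 2 * ((2 * ψ x - ψ (x + Pi.single i 1) - ψ (x - Pi.single i 1)) / ψ x)) := by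
    rw [h1, Finset.sum_sub_distrib, ← Finset.mul_sum, ← Finset.mul_sum, ← Finset.sum_div]
    unfold negLap
    ring
  rw [h2]
  apply Finset.sum_congr rfl
  intro i _
  unfold av dv
  rw [add_sub_cancel_right]
  have h3 := (hψ x).ne'
  have h4 := (hψ (x + Pi.single i 1)).ne'
  field_simp
  ring

theorem ratio_le {ψ : Lat d → ℝ} (hψ : ∀ y, 9 / 10 ≤ ψ y ∧ ψ y ≤ 11 / 10) (x y : Lat d) :
    0 ≤ ψ x / ψ y ∧ ψ x / ψ y ≤ 2 := by
  have h1 := hψ x
  have h2 := hψ y
  constructor
  · apply div_nonneg <;> linarith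
  · rw [div_le_iff₀ (by linarith)]
    linarith

theorem dv_summable {ψ : Lat d → ℝ} (hψ : ∀ y, 9 / 10 ≤ ψ y ∧ ψ y ≤ 11 / 10) {u : Lat d → ℝ}
    (hu : Summable fun x => u x ^ 2) (i : Fin d) : Summable (dv ψ u i) := by
  have h1 : Summable (fun x => u (x - Pi.single i 1) ^ 2) :=
    shift_summable' (D := fun x => u x ^ 2) hu (Pi.single i 1)
  refine Summable.of_norm_bounded ((hu.mul_left 3).add h1) (fun x => ?_)
  unfold dv
  rw [Real.norm_eq_abs, abs_le]
  obtain ⟨h2, h3⟩ := ratio_le hψ (x - Pi.single i 1) x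
  have h4 : 0 ≤ u x ^ 2 * (ψ (x - Pi.single i 1) / ψ x) := mul_nonneg (sq_nonneg _) h2
  have h5 : u x ^ 2 * (ψ (x - Pi.single i 1) / ψ x) ≤ u x ^ 2 * 2 :=
    mul_le_mul_of_nonneg_left h3 (sq_nonneg _)
  constructor <;> nlinarith [sq_nonneg (u (x - Pi.single i 1) - u x),
    sq_nonneg (u (x - Pi.single i 1) + u x), sq_nonneg (u x), sq_nonneg (u (x - Pi.single i 1))]

theorem av_nonneg {ψ : Lat d → ℝ} (hψ : ∀ y, 0 < ψ y) (u : Lat d → ℝ) (i : Fin d) (x : Lat d) :
    0 ≤ av ψ u i x :=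
  mul_nonneg (mul_pos (hψ _) (hψ _)).le (sq_nonneg _)

theorem av_summable {ψ : Lat d → ℝ} (hψ : ∀ y, 9 / 10 ≤ ψ y ∧ ψ y ≤ 11 / 10) {u : Lat d → ℝ}
    (hu : Summable fun x => u x ^ 2) (i : Fin d) : Summable (av ψ u i) := by
  have h1 : Summable (fun x => u (x + Pi.single i 1) ^ 2) :=
    shift_summable (D := fun x => u x ^ 2) hu (Pi.single i 1)
  have hpos : ∀ y, 0 < ψ y := fun y => by have := (hψ y).1; linarith
  refine Summable.of_nonneg_of_le (av_nonneg hpos u i) (fun x => ?_)
    ((hu.mul_left 4).add (h1.mul_left 4))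
  obtain ⟨h2, h3⟩ := ratio_le hψ (x + Pi.single i 1) x
  obtain ⟨h4, h5⟩ := ratio_le hψ x (x + Pi.single i 1)
  have e : av ψ u i x = u x ^ 2 * (ψ (x + Pi.single i 1) / ψ x) +
      u (x + Pi.single i 1) ^ 2 * (ψ x / ψ (x + Pi.single i 1)) -
      2 * (u x * u (x + Pi.single i 1)) := by
    unfold av
    have h3 := (hpos x).ne'
    have h4 := (hpos (x + Pi.single i 1)).ne'
    field_simp
    ring
  rw [e]
  have h6 : u x ^ 2 * (ψ (x + Pi.single i 1) / ψ x) ≤ u x ^ 2 * 2 :=
    mul_le_mul_of_nonneg_left h3 (sq_nonneg _)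
  have h7 : u (x + Pi.single i 1) ^ 2 * (ψ x / ψ (x + Pi.single i 1)) ≤
      u (x + Pi.single i 1) ^ 2 * 2 := mul_le_mul_of_nonneg_left h5 (sq_nonneg _)
  nlinarith [sq_nonneg (u x + u (x + Pi.single i 1)), sq_nonneg (u x),
    sq_nonneg (u (x + Pi.single i 1))]

theorem hasSum_q {U ψ : Lat d → ℝ} (hψ : ∀ y, 9 / 10 ≤ ψ y ∧ ψ y ≤ 11 / 10)
    (hz : ∀ y, negLap ψ y + U y * ψ y = 0) {u : Lat d → ℝ} (hu : Summable fun x => u x ^ 2) :
    HasSum (fun x => u x * (negLap u x + U x * u x)) (∑ i, ∑' x, av ψ u i x) := by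
  have hpos : ∀ y, 0 < ψ y := fun y => by have := (hψ y).1; linarith
  have h1 : HasSum (fun x => ∑ i, (av ψ u i x + (dv ψ u i x - dv ψ u i (x + Pi.single i 1))))
      (∑ i, (∑' x, av ψ u i x + 0)) :=
    hasSum_sum fun i _ => (av_summable hψ hu i).hasSum.add (hasSum_diff (dv_summable hψ hu i) (Pi.single i 1))
  simp only [add_zero] at h1
  have h2 : (fun x => u x * (negLap u x + U x * u x)) =
      fun x => ∑ i, (av ψ u i x + (dv ψ u i x - dv ψ u i (x + Pi.single i 1))) := by
    funext x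
    exact pointwise hpos hz u x
  rw [h2]
  exact h1

/-! ### Dirichlet Green functions -/

open Classical in
/-- extension by zero -/
noncomputable def ex0 (L : Finset (Lat d)) (f : L → ℝ) (z : Lat d) : ℝ :=
  if h : z ∈ L then f ⟨z, h⟩ else 0

theorem ex0_add (L : Finset (Lat d)) (f g : L → ℝ) (z : Lat d) :
    ex0 L (f + g) z = ex0 L f z + ex0 L g z := by
  unfold ex0
  split_ifs
  · rfl
  · rw [add_zero]

theorem ex0_smul (L : Finset (Lat d)) (c : ℝ) (f : L → ℝ) (z : Lat d) :
    ex0 L (c • f) z = c * ex0 L f z := by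
  unfold ex0
  split_ifs
  · rfl
  · rw [mul_zero]

theorem negLap_add (f g h : Lat d → ℝ) (H : ∀ z, h z = f z + g z) (x : Lat d) :
    negLap h x = negLap f x + negLap g x := by
  unfold negLap
  rw [← Finset.sum_add_distrib]
  apply Finset.sum_congr rfl
  intro i _
  rw [H, H, H]
  ring

theorem negLap_smul (c : ℝ) (f h : Lat d → ℝ) (H : ∀ z, h z = c * f z) (x : Lat d) :
    negLap h x = c * negLap f x := by
  unfold negLap
  rw [Finset.mul_sum]
  apply Finset.sum_congr rfl
  intro i _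
  rw [H, H, H]
  ring

/-- the operator with Dirichlet conditions -/
noncomputable def TT (U : Lat d → ℝ) (L : Finset (Lat d)) : (L → ℝ) →ₗ[ℝ] (L → ℝ) where
  toFun f y := negLap (ex0 L f) y + U y * ex0 L f y
  map_add' f g := by
    funext y
    rw [Pi.add_apply, negLap_add _ _ _ (ex0_add L f g), ex0_add]
    ring
  map_smul' c f := by
    funext y
    rw [Pi.smul_apply, negLap_smul c _ _ (ex0_smul L c f), ex0_smul, RingHom.id_apply, smul_eq_mul]
    ring

theorem TT_inj (hd : 1 ≤ d) {U ψ : Lat d → ℝ} (hψ : ∀ y, 9 / 10 ≤ ψ y ∧ ψ y ≤ 11 / 10)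
    (hz : ∀ y, negLap ψ y + U y * ψ y = 0) (L : Finset (Lat d)) :
    Function.Injective (TT U L) := by
  have hpos : ∀ y, 0 < ψ y := fun y => by have := (hψ y).1; linarith
  rw [injective_iff_map_eq_zero]
  intro f hf
  have hout : ∀ y, y ∉ L → ex0 L f y = 0 := by
    intro y hy
    unfold ex0
    rw [dif_neg hy]
  have hin : ∀ y ∈ L, negLap (ex0 L f) y + U y * ex0 L f y = 0 := by
    intro y hy
    exact congrFun hf ⟨y, hy⟩
  have hu : Summable fun x => ex0 L f x ^ 2 := fin_summable L fun y hy => by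
    rw [hout y hy]
    norm_num
  have h1 := hasSum_q hψ hz hu
  have h2 : HasSum (fun x => ex0 L f x * (negLap (ex0 L f) x + U x * ex0 L f x)) 0 := by
    have e : (fun x => ex0 L f x * (negLap (ex0 L f) x + U x * ex0 L f x)) = fun _ => 0 := by
      funext x
      by_cases hx : x ∈ L
      · rw [hin x hx, mul_zero]
      · rw [hout x hx, zero_mul]
    rw [e]
    exact hasSum_zero
  have h3 : ∑ i, ∑' x, av ψ (ex0 L f) i x = 0 := h1.unique h2
  have h4 : ∀ i, ∑' x, av ψ (ex0 L f) i x = 0 := by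
    intro i
    exact (Finset.sum_eq_zero_iff_of_nonneg (fun i _ => tsum_nonneg (av_nonneg hpos _ i))).mp h3 i
      (Finset.mem_univ i)
  have h5 : ∀ i x, av ψ (ex0 L f) i x = 0 := by
    intro i x
    have h6 := (av_summable hψ hu i).hasSum
    rw [h4 i, hasSum_zero_iff_of_nonneg (av_nonneg hpos _ i)] at h6
    exact congrFun h6 x
  let i0 : Fin d := ⟨0, hd⟩
  have h6 : ∀ x : Lat d, ex0 L f x / ψ x =
      ex0 L f (x + Pi.single i0 1) / ψ (x + Pi.single i0 1) := by
    intro x
    have h7 := h5 i0 x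
    unfold av at h7
    rw [mul_eq_zero, or_iff_right (mul_pos (hpos _) (hpos _)).ne', sq_eq_zero_iff, sub_eq_zero] at h7
    exact h7
  have h7 : ∀ (n : ℕ) (x : Lat d), ex0 L f x / ψ x =
      ex0 L f (x + n • (Pi.single i0 1 : Lat d)) / ψ (x + n • (Pi.single i0 1 : Lat d)) := by
    intro n
    induction n with
    | zero => intro x; rw [zero_smul, add_zero]
    | succ n ih =>
      intro x
      rw [ih x, h6 (x + n • (Pi.single i0 1 : Lat d)), add_assoc, ← succ_nsmul]
  have h8 : ∀ x : Lat d, ∃ n : ℕ, x + n • (Pi.single i0 1 : Lat d) ∉ L := by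
    intro x
    by_contra hcon
    push Not at hcon
    have hinj : Function.Injective (fun n : ℕ => x + n • (Pi.single i0 1 : Lat d)) := by
      intro a b hab
      have h9 : x i0 + (a • (Pi.single i0 1 : Lat d)) i0 =
          x i0 + (b • (Pi.single i0 1 : Lat d)) i0 := congrFun hab i0
      rw [Pi.smul_apply, Pi.smul_apply, Pi.single_eq_same, nsmul_eq_mul, nsmul_eq_mul, mul_one,
        mul_one] at h9
      have h10 : (a : ℤ) = b := by linarith
      exact_mod_cast h10
    exact (Set.infinite_of_injective_forall_mem hinj (s := (↑L : Set (Lat d)))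
      (fun n => hcon n)) L.finite_toSet
  have h9 : ∀ x, ex0 L f x = 0 := by
    intro x
    obtain ⟨n, hn⟩ := h8 x
    have h10 := h7 n x
    rw [hout _ hn, zero_div, div_eq_zero_iff] at h10
    rcases h10 with h | h
    · exact h
    · exact absurd h (hpos x).ne'
  funext y
  have h10 := h9 y.1
  unfold ex0 at h10
  rw [dif_pos y.2] at h10
  exact h10

theorem exists_green (hd : 1 ≤ d) {U ψ : Lat d → ℝ}
    (hψ : ∀ y, 9 / 10 ≤ ψ y ∧ ψ y ≤ 11 / 10) (hz : ∀ y, negLap ψ y + U y * ψ y = 0)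
    (L : Finset (Lat d)) (x : Lat d) : ∃ G : Lat d → ℝ, (∀ y, y ∉ L → G y = 0) ∧
      ∀ y ∈ L, negLap G y + U y * G y = if y = x then 1 else 0 := by
  classical
  have h1 : Function.Surjective (TT U L) :=
    (LinearMap.injective_iff_surjective).mp (TT_inj hd hψ hz L)
  obtain ⟨f, hf⟩ := h1 (fun y => if (y : Lat d) = x then 1 else 0)
  refine ⟨ex0 L f, fun y hy => by unfold ex0; rw [dif_neg hy], fun y hy => ?_⟩
  exact congrFun hf ⟨y, hy⟩

/-- summation by parts -/
theorem parts {G u : Lat d → ℝ} (hG : Summable fun x => G x ^ 2)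
    (hu : Summable fun x => u x ^ 2) : HasSum (fun y => negLap G y * u y - G y * negLap u y) 0 := by
  have h1 : ∀ i : Fin d, HasSum (fun y =>
      (G y * u (y - Pi.single i 1) - G (y + Pi.single i 1) * u (y + Pi.single i 1 - Pi.single i 1))
      + (G y * u (y + Pi.single i 1) -
        G (y + -(Pi.single i 1 : Lat d)) * u (y + -(Pi.single i 1 : Lat d) + Pi.single i 1)))
      (0 + 0) := by
    intro i
    have h2 : Summable (fun x => u (x - Pi.single i 1) ^ 2) :=
      shift_summable' (D := fun x => u x ^ 2) hu (Pi.single i 1)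
    have h3 : Summable (fun x => u (x + Pi.single i 1) ^ 2) :=
      shift_summable (D := fun x => u x ^ 2) hu (Pi.single i 1)
    refine HasSum.add ?_ ?_
    · exact hasSum_diff (D := fun y => G y * u (y - Pi.single i 1)) (cs hG h2).1 (Pi.single i 1)
    · exact hasSum_diff (D := fun y => G y * u (y + Pi.single i 1)) (cs hG h3).1
        (-(Pi.single i 1 : Lat d))
  have h4 := hasSum_sum (s := Finset.univ) fun i (_ : i ∈ Finset.univ) => h1 i
  simp only [add_zero, Finset.sum_const_zero] at h4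
  have h5 : (fun y => negLap G y * u y - G y * negLap u y) = fun y => ∑ i : Fin d,
      ((G y * u (y - Pi.single i 1) - G (y + Pi.single i 1) * u (y + Pi.single i 1 - Pi.single i 1))
      + (G y * u (y + Pi.single i 1) -
        G (y + -(Pi.single i 1 : Lat d)) * u (y + -(Pi.single i 1 : Lat d) + Pi.single i 1))) := by
    funext y
    unfold negLap
    rw [Finset.sum_mul, Finset.mul_sum, ← Finset.sum_sub_distrib]
    apply Finset.sum_congr rfl
    intro i _
    rw [add_sub_cancel_right, neg_add_cancel_right, ← sub_eq_add_neg]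
    ring
  rw [h5]
  exact h4

/-- the bound for the neighbours -/
theorem lap_off {G : Lat d → ℝ} (hG : Summable fun x => G x ^ 2) (r : Lat d → ℝ)
    (hr : ∀ y, r y = 0 ∨ (G y = 0 ∧ r y = negLap G y)) :
    Summable (fun y => r y ^ 2) ∧ ∑' y, r y ^ 2 ≤ 4 * (d : ℝ) ^ 2 * ∑' y, G y ^ 2 := by
  have h1 : ∀ y : Lat d, r y ^ 2 ≤ ∑ i : Fin d, (2 * (d : ℝ)) *
      (G (y + Pi.single i 1) ^ 2 + G (y - Pi.single i 1) ^ 2) := by
    intro y
    rcases hr y with h | ⟨h, h'⟩
    · rw [h]
      have : 0 ≤ ∑ i : Fin d, (2 * (d : ℝ)) *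
          (G (y + Pi.single i 1) ^ 2 + G (y - Pi.single i 1) ^ 2) :=
        Finset.sum_nonneg fun i _ => by positivity
      simpa using this
    · rw [h', ← Finset.mul_sum]
      unfold negLap
      refine (sq_sum_le_card_mul_sum_sq).trans ?_
      rw [Finset.card_univ, Fintype.card_fin, mul_comm 2 (d : ℝ), mul_assoc]
      refine mul_le_mul_of_nonneg_left ?_ (Nat.cast_nonneg d)
      rw [Finset.mul_sum]
      refine Finset.sum_le_sum fun i _ => ?_
      rw [h]
      nlinarith [sq_nonneg (G (y + (Pi.single i 1 : Lat d)) - G (y - (Pi.single i 1 : Lat d)))]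
  have h2 : ∀ i : Fin d, HasSum (fun y : Lat d => (2 * (d : ℝ)) *
      (G (y + Pi.single i 1) ^ 2 + G (y - Pi.single i 1) ^ 2))
      ((2 * (d : ℝ)) * (∑' y, G y ^ 2 + ∑' y, G y ^ 2)) := by
    intro i
    refine HasSum.mul_left _ (HasSum.add ?_ ?_)
    · have h3 := (shift_summable hG (Pi.single i 1)).hasSum
      rwa [shift_tsum (fun y => G y ^ 2) (Pi.single i 1)] at h3
    · have h3 := (shift_summable hG (-(Pi.single i 1 : Lat d))).hasSum
      rw [shift_tsum (fun y => G y ^ 2) (-(Pi.single i 1 : Lat d))] at h3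
      simpa only [← sub_eq_add_neg] using h3
  have h3 := hasSum_sum (s := Finset.univ) fun i (_ : i ∈ Finset.univ) => h2 i
  have h4 : Summable (fun y => r y ^ 2) :=
    Summable.of_nonneg_of_le (fun y => sq_nonneg _) h1 h3.summable
  refine ⟨h4, ?_⟩
  have h5 := hasSum_le h1 h4.hasSum h3
  refine h5.trans (le_of_eq ?_)
  rw [Finset.sum_const, Finset.card_univ, Fintype.card_fin, nsmul_eq_mul]
  ring

/-- the main estimate -/
theorem main_est (hd : 1 ≤ d) {η C : ℝ} (hη : η ≤ 1 / 10) (hG : GreenBound d 0 η C)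
    {U ψ : Lat d → ℝ} (hψ : ∀ y, |ψ y - 1| ≤ η) (hz : ∀ y, negLap ψ y + U y * ψ y = 0)
    {E : ℝ} {u : Lat d → ℝ} (hu : Summable fun x => u x ^ 2)
    (he : ∀ x, negLap u x + U x * u x = E * u x) (x : Lat d) (L : Finset (Lat d)) (hx : x ∈ L) :
    |u x| ≤ |E| * √(C * ∑' y, u y ^ 2) +
      √(4 * (d : ℝ) ^ 2 * C * (∑' y, u y ^ 2 - ∑ y ∈ L, u y ^ 2)) := by
  classical
  have hψ' : ∀ y, 9 / 10 ≤ ψ y ∧ ψ y ≤ 11 / 10 := by
    intro y
    have := abs_le.mp (hψ y)
    constructor <;> linarith [this.1, this.2]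
  obtain ⟨G, hG0, hG1⟩ := exists_green hd hψ' hz L x
  have hGC : ∑ y ∈ L, G y ^ 2 ≤ C := by
    have h1 := hG L ψ G U x hx hψ (fun y _ => hz y) hG0 hG1
    simpa only [Real.rpow_zero, one_mul] using h1
  have hGs : Summable fun y => G y ^ 2 := fin_summable L fun y hy => by
    rw [hG0 y hy]
    norm_num
  have hGt : ∑' y, G y ^ 2 ≤ C := by
    rw [tsum_eq_sum (s := L) fun y hy => by rw [hG0 y hy]; norm_num]
    exact hGC
  -- the remainder
  let r : Lat d → ℝ := fun y => if y ∈ L then 0 else negLap G y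
  let w : Lat d → ℝ := fun y => if y ∈ L then 0 else u y
  have hr := lap_off hGs r (fun y => by
    by_cases h : y ∈ L
    · exact Or.inl (if_pos h)
    · exact Or.inr ⟨hG0 y h, if_neg h⟩)
  have hw : HasSum (fun y => w y ^ 2) (∑' y, u y ^ 2 - ∑ y ∈ L, u y ^ 2) := by
    have h1 : HasSum (fun y => if y ∈ L then u y ^ 2 else 0) (∑ y ∈ L, u y ^ 2) := by
      have h2 : ∀ y, y ∉ L → (if y ∈ L then u y ^ 2 else 0) = 0 := fun y hy => if_neg hy
      have h3 : HasSum (fun y => if y ∈ L then u y ^ 2 else 0)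
          (∑ y ∈ L, (if y ∈ L then u y ^ 2 else 0)) := hasSum_sum_of_ne_finset_zero h2
      have h4 : ∑ y ∈ L, (if y ∈ L then u y ^ 2 else 0) = ∑ y ∈ L, u y ^ 2 :=
        Finset.sum_congr rfl fun y hy => if_pos hy
      rwa [h4] at h3
    have h2 := hu.hasSum.sub h1
    have e : (fun y => w y ^ 2) = fun y => u y ^ 2 - if y ∈ L then u y ^ 2 else 0 := by
      funext y
      show (if y ∈ L then 0 else u y) ^ 2 = _
      split_ifs
      · ring
      · ring
    rw [e]
    exact h2
  -- the identity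
  have hid : u x + ∑' y, r y * w y = E * ∑' y, G y * u y := by
    have h1 := parts hGs hu
    have hrw := (cs hr.1 hw.summable).1
    have hGu := (cs hGs hu).1
    have h2 : HasSum (fun y => ((if y = x then u x else 0) + r y * w y) - E * (G y * u y))
        ((u x + ∑' y, r y * w y) - E * ∑' y, G y * u y) :=
      ((hasSum_ite_eq x (u x)).add hrw.hasSum).sub (hGu.hasSum.mul_left E)
    have e : (fun y => ((if y = x then u x else 0) + r y * w y) - E * (G y * u y)) =
        fun y => negLap G y * u y - G y * negLap u y := by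
      funext y
      have h3 := he y
      by_cases h : y ∈ L
      · have h4 := hG1 y h
        have e1 : r y = 0 := if_pos h
        rw [e1, zero_mul, add_zero]
        by_cases hyx : y = x
        · rw [if_pos hyx] at h4 ⊢
          subst hyx
          have e2 : negLap G y = 1 - U y * G y := by linarith
          have e3 : negLap u y = E * u y - U y * u y := by linarith
          rw [e2, e3]
          ring
        · rw [if_neg hyx] at h4 ⊢
          have e2 : negLap G y = - U y * G y := by linarith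
          have e3 : negLap u y = E * u y - U y * u y := by linarith
          rw [e2, e3]
          ring
      · have e1 : r y = negLap G y := if_neg h
        have e2 : w y = u y := if_neg h
        have e3 : y ≠ x := fun h' => h (h' ▸ hx)
        rw [e1, e2, if_neg e3, hG0 y h]
        ring
    rw [e] at h2
    have h3 := h2.unique h1
    linarith
  have hb1 : |∑' y, G y * u y| ≤ √(C * ∑' y, u y ^ 2) := by
    apply Real.abs_le_sqrt
    refine (cs hGs hu).2.trans ?_
    exact mul_le_mul_of_nonneg_right hGt (tsum_nonneg fun y => sq_nonneg _)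
  have hb2 : |∑' y, r y * w y| ≤
      √(4 * (d : ℝ) ^ 2 * C * (∑' y, u y ^ 2 - ∑ y ∈ L, u y ^ 2)) := by
    apply Real.abs_le_sqrt
    refine (cs hr.1 hw.summable).2.trans ?_
    rw [hw.tsum_eq]
    refine mul_le_mul_of_nonneg_right (hr.2.trans ?_) ?_
    · exact mul_le_mul_of_nonneg_left hGt (by positivity)
    · rw [← hw.tsum_eq]
      exact tsum_nonneg fun y => sq_nonneg _
  have e : u x = E * (∑' y, G y * u y) - ∑' y, r y * w y := by linarith
  rw [e]
  refine (abs_sub _ _).trans ?_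
  rw [abs_mul]
  exact add_le_add (mul_le_mul_of_nonneg_left hb1 (abs_nonneg E)) hb2

theorem stmEdge : StmEdge := by
  intro d η C hd hη0 hη hC hG U ψ hψ hz
  have hψ' : ∀ y, 9 / 10 ≤ ψ y ∧ ψ y ≤ 11 / 10 := by
    intro y
    have := abs_le.mp (hψ y)
    constructor <;> linarith [this.1, this.2]
  have hpos : ∀ y, 0 < ψ y := fun y => by have := (hψ' y).1; linarith
  have h1 : ∀ u : Lat d → ℝ, Summable (fun x => u x ^ 2) →
      Summable (fun x => u x * (negLap u x + U x * u x)) ∧
      0 ≤ ∑' x, u x * (negLap u x + U x * u x) := by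
    intro u hu
    have h := hasSum_q hψ' hz hu
    refine ⟨h.summable, ?_⟩
    rw [h.tsum_eq]
    exact Finset.sum_nonneg fun i _ => tsum_nonneg (av_nonneg hpos u i)
  have h3 : ∀ (E : ℝ) (u : Lat d → ℝ), Summable (fun x => u x ^ 2) →
      (∀ x, negLap u x + U x * u x = E * u x) →
      ∀ x, u x ^ 2 ≤ C * E ^ 2 * ∑' y, u y ^ 2 := by
    intro E u hu he x
    have hS : 0 ≤ ∑' y, u y ^ 2 := tsum_nonneg fun y => sq_nonneg _
    have hlim : Tendsto (fun L : Finset (Lat d) => |E| * √(C * ∑' y, u y ^ 2) +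
        √(4 * (d : ℝ) ^ 2 * C * (∑' y, u y ^ 2 - ∑ y ∈ L, u y ^ 2))) atTop
        (𝓝 (|E| * √(C * ∑' y, u y ^ 2) +
        √(4 * (d : ℝ) ^ 2 * C * (∑' y, u y ^ 2 - ∑' y, u y ^ 2)))) := by
      refine tendsto_const_nhds.add (Tendsto.sqrt ?_)
      exact (tendsto_const_nhds.sub hu.hasSum).const_mul _
    rw [sub_self, mul_zero, Real.sqrt_zero, add_zero] at hlim
    have h4 : |u x| ≤ |E| * √(C * ∑' y, u y ^ 2) := by
      refine ge_of_tendsto hlim ?_
      filter_upwards [eventually_ge_atTop ({x} : Finset (Lat d))] with L hL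
      exact main_est hd hη hG hψ hz hu he x L (hL (Finset.mem_singleton_self x))
    have h5 := pow_le_pow_left₀ (abs_nonneg (u x)) h4 2
    rw [sq_abs, mul_pow, sq_abs, Real.sq_sqrt (by positivity)] at h5
    refine h5.trans (le_of_eq ?_)
    ring
  refine ⟨h1, ?_, h3⟩
  intro E u hu he hE x
  have h4 := h3 E u hu he x
  have h5 := (h1 u hu).2
  have h6 : ∑' x, u x * (negLap u x + U x * u x) = E * ∑' x, u x ^ 2 := by
    rw [← tsum_mul_left]
    congr 1
    funext y
    rw [he]
    ring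
  rw [h6] at h5
  have hS : 0 ≤ ∑' y, u y ^ 2 := tsum_nonneg fun y => sq_nonneg _
  have h7 : C * E ^ 2 * ∑' y, u y ^ 2 = 0 := by
    rcases hE.lt_or_eq with h | h
    · have : ∑' y, u y ^ 2 = 0 := by nlinarith
      rw [this, mul_zero]
    · rw [h]
      ring
  rw [h7] at h4
  exact pow_eq_zero_iff (two_ne_zero) |>.mp (le_antisymm h4 (sq_nonneg _))

end Pool.Agent.W978.DS
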