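import Pool.Agent.W122.DS.Stm2

/-!
DS-7: slowly varying logarithms and a lattice sum.
-/

set_option autoImplicit false

namespace Pool.Agent.W978.DS

open Pool.Agent.W122.DS

/-- the vector -/
noncomputable def vc {d : ℕ} (x : Lat d) : EuclideanSpace ℝ (Fin d) :=
  WithLp.toLp 2 (fun i => (x i : ℝ))

theorem norm_vc {d : ℕ} (x : Lat d) : ‖vc x‖ = √(nsq x) := by
  rw [EuclideanSpace.norm_eq]
  unfold nsq vc
  congr 1
  apply Finset.sum_congr rfl
  intro i _
  rw [Real.norm_eq_abs, sq_abs]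

theorem vc_sub {d : ℕ} (x y : Lat d) : vc (y - x) = vc y - vc x := by
  ext i
  show ((y - x) i : ℝ) = (y i : ℝ) - (x i : ℝ)
  rw [Pi.sub_apply]
  push_cast
  ring

theorem tri {d : ℕ} (x y : Lat d) : √(nsq x) ≤ √(nsq y) + √(nsq (y - x)) := by
  rw [← norm_vc, ← norm_vc, ← norm_vc, vc_sub]
  exact norm_le_norm_add_norm_sub (vc y) (vc x)

theorem nsq_nonneg {d : ℕ} (x : Lat d) : 0 ≤ nsq x := Finset.sum_nonneg fun i _ => sq_nonneg _

theorem one_le_exp : (1 : ℝ) ≤ Real.exp 1 := by
  have := Real.add_one_le_exp (1 : ℝ)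
  linarith

theorem one_le_log {a : ℝ} (ha : 0 ≤ a) : 1 ≤ Real.log (Real.exp 1 + a) := by
  rw [Real.le_log_iff_exp_le (by have := Real.exp_pos 1; linarith)]
  linarith

theorem stmLog : StmLog := by
  intro d ν g hν hg
  set ε : ℝ := 2 * g / ν with hε
  have hε0 : 0 < ε := by positivity
  set C0 : ℝ := 1 + 2 ^ (ε / 2) / ε with hC0
  have hC1 : 1 ≤ C0 := by
    have : 0 ≤ (2 : ℝ) ^ (ε / 2) / ε := by positivity
    linarith
  refine ⟨C0 ^ ν, Real.one_le_rpow hC1 hν.le, ?_⟩
  intro x y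
  set a := √(nsq x) with ha
  set b := √(nsq y) with hb
  set t := √(nsq (y - x)) with ht
  have ha0 : 0 ≤ a := Real.sqrt_nonneg _
  have hb0 : 0 ≤ b := Real.sqrt_nonneg _
  have ht0 : 0 ≤ t := Real.sqrt_nonneg _
  have htri : a ≤ b + t := tri x y
  have ht2 : nsq (y - x) = t ^ 2 := by
    rw [ht, Real.sq_sqrt (nsq_nonneg _)]
  rw [ht2]
  have he := one_le_exp
  have h1 : Real.exp 1 + a ≤ (Real.exp 1 + b) * (1 + t) := by nlinarith [mul_nonneg hb0 ht0]
  have h2 : Real.log (Real.exp 1 + a) ≤ Real.log (Real.exp 1 + b) + Real.log (1 + t) := by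
    rw [← Real.log_mul (by linarith) (by linarith)]
    exact Real.log_le_log (by linarith) h1
  have hLb := one_le_log hb0
  have hLa := one_le_log ha0
  have hlt : 0 ≤ Real.log (1 + t) := Real.log_nonneg (by linarith)
  have h3 : Real.log (Real.exp 1 + a) ≤ Real.log (Real.exp 1 + b) * (1 + Real.log (1 + t)) := by
    nlinarith
  have hbase : 1 ≤ 1 + t ^ 2 := by nlinarith [sq_nonneg t]
  have h4 : 1 + Real.log (1 + t) ≤ C0 * (1 + t ^ 2) ^ (ε / 2) := by
    have h5 : Real.log (1 + t) ≤ (1 + t) ^ ε / ε := Real.log_le_rpow_div (by linarith) hε0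
    have h6 : (1 + t) ^ ε ≤ 2 ^ (ε / 2) * (1 + t ^ 2) ^ (ε / 2) := by
      rw [← Real.mul_rpow (by norm_num) (by linarith)]
      have h7 : (1 + t) ^ ε = ((1 + t) ^ 2) ^ (ε / 2) := by
        rw [← Real.rpow_natCast (1 + t) 2, ← Real.rpow_mul (by linarith)]
        congr 1
        push_cast
        ring
      rw [h7]
      apply Real.rpow_le_rpow (by positivity) _ (by positivity)
      nlinarith [sq_nonneg (1 - t)]
    have h8 : 1 ≤ (1 + t ^ 2) ^ (ε / 2) := Real.one_le_rpow hbase (by positivity)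
    have h9 : (1 + t) ^ ε / ε ≤ 2 ^ (ε / 2) * (1 + t ^ 2) ^ (ε / 2) / ε :=
      div_le_div_of_nonneg_right h6 hε0.le
    rw [hC0, add_mul, one_mul]
    have e : 2 ^ (ε / 2) / ε * (1 + t ^ 2) ^ (ε / 2) =
        2 ^ (ε / 2) * (1 + t ^ 2) ^ (ε / 2) / ε := by ring
    rw [e]
    linarith
  have h5 : Real.log (Real.exp 1 + a) ≤
      Real.log (Real.exp 1 + b) * (C0 * (1 + t ^ 2) ^ (ε / 2)) :=
    h3.trans (mul_le_mul_of_nonneg_left h4 (by linarith))
  have h6 := Real.rpow_le_rpow (by linarith) h5 hν.le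
  refine h6.trans (le_of_eq ?_)
  rw [Real.mul_rpow (by linarith) (by positivity), Real.mul_rpow (by linarith) (by positivity),
    ← Real.rpow_mul (by linarith)]
  have e : ε / 2 * ν = g := by
    rw [hε]
    field_simp
  rw [e]
  ring

/-- one factor -/
noncomputable def fac (b : ℝ) (j : ℤ) : ℝ := Real.exp (-(b / 2 * Real.log (1 + (j : ℝ) ^ 2)))

theorem fac_summable {b : ℝ} (hb : 1 < b) : Summable (fac b) := by
  have h1 := Real.summable_abs_int_rpow hb
  have h2 : Summable (fun j : ℤ => if j = 0 then (1 : ℝ) else 0) :=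
    (hasSum_ite_eq (0 : ℤ) (1 : ℝ)).summable
  refine Summable.of_nonneg_of_le (fun j => (Real.exp_pos _).le) (fun j => ?_) (h1.add h2)
  by_cases hj : j = 0
  · subst hj
    rw [if_pos rfl]
    unfold fac
    have : 0 ≤ |((0 : ℤ) : ℝ)| ^ (-b) := Real.rpow_nonneg (abs_nonneg _) _
    simp only [Int.cast_zero, ne_eq, OfNat.ofNat_ne_zero, not_false_eq_true, zero_pow, add_zero,
      Real.log_one, mul_zero, neg_zero, Real.exp_zero] at this ⊢
    linarith
  · rw [if_neg hj, add_zero]
    have hj' : 0 < |(j : ℝ)| := abs_pos.mpr (by exact_mod_cast hj)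
    rw [Real.rpow_def_of_pos hj']
    unfold fac
    apply Real.exp_le_exp.mpr
    have h3 : 2 * Real.log |(j : ℝ)| ≤ Real.log (1 + (j : ℝ) ^ 2) := by
      have h4 : 2 * Real.log |(j : ℝ)| = Real.log (|(j : ℝ)| ^ 2) := by
        rw [Real.log_pow]
        push_cast
        ring
      rw [h4, sq_abs]
      apply Real.log_le_log
      · rw [← sq_abs]
        positivity
      · linarith
    nlinarith

theorem stmSum : StmSum := by
  intro d
  set b : ℝ := 1 + 1 / ((d : ℝ) + 1) with hb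
  have hd0 : (0 : ℝ) ≤ d := Nat.cast_nonneg d
  have hb1 : 1 < b := by
    have : 0 < 1 / ((d : ℝ) + 1) := by positivity
    linarith
  have hbd : (d : ℝ) * b ≤ d + 1 := by
    rw [hb, mul_add, mul_one, mul_one_div]
    have : (d : ℝ) / (d + 1) ≤ 1 := by
      rw [div_le_one (by linarith)]
      linarith
    linarith
  have hs := fac_summable hb1
  refine ⟨max 1 ((∑' j, fac b j) ^ d), le_max_left _ _, ?_⟩
  intro Λ
  refine le_trans ?_ (le_max_right _ _)
  have h1 : ∀ x : Lat d, Real.exp (-((d + 1 : ℝ) * Real.log (Real.exp 1 + √(nsq x)))) ≤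
      ∏ i, fac b (x i) := by
    intro x
    unfold fac
    rw [← Real.exp_sum]
    apply Real.exp_le_exp.mpr
    rw [Finset.sum_neg_distrib]
    apply neg_le_neg
    have hL := one_le_log (Real.sqrt_nonneg (nsq x))
    have h2 : ∀ i ∈ Finset.univ, b / 2 * Real.log (1 + (x i : ℝ) ^ 2) ≤
        b * Real.log (Real.exp 1 + √(nsq x)) := by
      intro i _
      have h3 : (x i : ℝ) ^ 2 ≤ nsq x :=
        Finset.single_le_sum (f := fun i => (x i : ℝ) ^ 2) (fun j _ => sq_nonneg _)
          (Finset.mem_univ i)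
      have h4 : Real.log (1 + (x i : ℝ) ^ 2) ≤ 2 * Real.log (Real.exp 1 + √(nsq x)) := by
        have h5 : 2 * Real.log (Real.exp 1 + √(nsq x)) =
            Real.log ((Real.exp 1 + √(nsq x)) ^ 2) := by
          rw [Real.log_pow]
          push_cast
          ring
        rw [h5]
        apply Real.log_le_log (by positivity)
        have h6 := Real.sq_sqrt (nsq_nonneg x)
        have h7 := one_le_exp
        have h8 := Real.sqrt_nonneg (nsq x)
        nlinarith [mul_nonneg h8 (by linarith : (0:ℝ) ≤ Real.exp 1)]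
      nlinarith
    refine (Finset.sum_le_sum h2).trans ?_
    rw [Finset.sum_const, Finset.card_univ, Fintype.card_fin, nsmul_eq_mul, ← mul_assoc]
    exact mul_le_mul_of_nonneg_right hbd (by linarith)
  refine (Finset.sum_le_sum fun x _ => h1 x).trans ?_
  classical
  have hfac : ∀ j, 0 ≤ fac b j := fun j => (Real.exp_pos _).le
  have hsub : Λ ⊆ Fintype.piFinset (fun i => Λ.image (fun x => x i)) := by
    intro x hx
    rw [Fintype.mem_piFinset]
    intro i
    exact Finset.mem_image_of_mem _ hx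
  refine (Finset.sum_le_sum_of_subset_of_nonneg hsub
    (fun x _ _ => Finset.prod_nonneg fun i _ => hfac _)).trans ?_
  rw [← Finset.prod_univ_sum (fun i => Λ.image (fun x => x i)) (fun _ j => fac b j)]
  have h2 : ∀ i ∈ (Finset.univ : Finset (Fin d)),
      ∑ j ∈ Λ.image (fun x => x i), fac b j ≤ ∑' j, fac b j :=
    fun i _ => hs.sum_le_tsum _ fun j _ => hfac j
  refine (Finset.prod_le_prod (fun i _ => Finset.sum_nonneg fun j _ => hfac j) h2).trans ?_
  rw [Finset.prod_const, Finset.card_univ, Fintype.card_fin]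

end Pool.Agent.W978.DS
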